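import Pool.Agent.W827.Kd.Basic

set_option autoImplicit false
open Classical

namespace Pool.Agent.W646.KD.KdCl

open Pool.Agent.H362C Pool.Agent.W827.Kd

noncomputable section

theorem Reg_sub {j : ℕ} {η p s : ℝ} {E : Finset (Sym2 ℕ)} {L : Finset ℕ} {a : ℕ}
    (h : Reg (j + 1) η p s E L) (ha : a ∈ L) : Reg j η p (s * p) E (cnb E L {a}) := by
  intro F hF hj
  have haF : a ∉ F := fun h => by
    have := hF h
    rw [mem_cnb] at this
    exact this.2.1 (Finset.mem_singleton_self a)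
  have h6 := h (insert a F) (Finset.insert_subset ha (le_trans hF cnb_sub))
    (by rw [Finset.card_insert_of_notMem haF]; omega)
  rw [Finset.card_insert_of_notMem haF] at h6
  rw [cnb_cnb, ← Finset.insert_eq]
  have e1 : ∀ c : ℝ, c * (s * p) * p ^ F.card = c * s * p ^ (F.card + 1) := by
    intro c; rw [pow_succ]; ring
  simp only [e1]
  exact h6

theorem exists_le_sum {X : Finset ℕ} (hX : X.Nonempty) (f : ℕ → ℕ) (c : ℝ)
    (h : ((∑ a ∈ X, f a : ℕ) : ℝ) ≤ X.card * c) : ∃ a ∈ X, (f a : ℝ) ≤ c := by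
  by_contra hcon
  push Not at hcon
  have : ∑ a ∈ X, c < ∑ a ∈ X, (f a : ℝ) := Finset.sum_lt_sum_of_nonempty hX hcon
  rw [Finset.sum_const, nsmul_eq_mul] at this
  push_cast at h
  linarith

theorem base : ∃ ε η : ℝ, 0 < ε ∧ 0 < η ∧ ∀ (p s : ℝ), 0 < p → p ≤ 1 →
    1 / η ≤ s * p ^ (1 - 1) → ∀ (E : Finset (Sym2 ℕ)) (L X : Finset ℕ), Reg 1 η p s E L →
    X ⊆ L → ((L \ X).card : ℝ) ≤ ε * s → ∃ t : Finset ℕ, IsK E X (1 + 1) t := by
  refine ⟨1 / 10, 1 / 10, by norm_num, by norm_num, ?_⟩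
  intro p s hp hp1 hs E L X hR hX hL
  simp only [Nat.sub_self, pow_zero, mul_one] at hs
  have hs10 : 10 ≤ s := by norm_num at hs; exact hs
  obtain ⟨h1, h2, h3⟩ := hR ∅ (Finset.empty_subset _) (by simp)
  rw [cnb_empty, Finset.card_empty, pow_zero, mul_one] at h1 h2
  simp only [cnb_empty, Finset.card_empty, pow_zero, mul_one] at h3
  have hc : (L.card : ℝ) = (X.card : ℝ) + ((L \ X).card : ℝ) := by
    have := Finset.card_sdiff_add_card_eq_card hX
    have h' : ((L \ X).card : ℝ) + (X.card : ℝ) = (L.card : ℝ) := by exact_mod_cast this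
    linarith
  have hXc : (8 / 10) * s ≤ (X.card : ℝ) := by linarith
  set k := ⌈s / 10⌉₊ with hk
  have hk1 : s / 10 ≤ (k : ℝ) := Nat.le_ceil _
  have hk2 : (k : ℝ) < s / 10 + 1 := Nat.ceil_lt_add_one (by linarith)
  have hkX : k ≤ X.card := by
    have : (k : ℝ) ≤ (X.card : ℝ) := by linarith
    exact_mod_cast this
  obtain ⟨X1, hX1, hX1c⟩ := Finset.exists_subset_card_eq hkX
  have hX2c : ((X \ X1).card : ℝ) + (k : ℝ) = (X.card : ℝ) := by
    have := Finset.card_sdiff_add_card_eq_card hX1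
    rw [hX1c] at this
    exact_mod_cast this
  have h4 := h3 X1 (X \ X1) (hX1.trans hX) (Finset.sdiff_subset.trans hX) Finset.disjoint_sdiff
    (by rw [hX1c]; linarith) (by linarith)
  have h5 : 0 < (eXY E X1 (X \ X1) : ℝ) := by
    refine lt_of_lt_of_le ?_ h4
    have a1 : (0:ℝ) < (X1.card : ℝ) := by rw [hX1c]; linarith
    have a2 : (0:ℝ) < ((X \ X1).card : ℝ) := by linarith
    positivity
  have h6 : 0 < eXY E X1 (X \ X1) := by exact_mod_cast h5
  unfold eXY at h6
  obtain ⟨⟨x, z⟩, hxz⟩ := Finset.card_pos.mp h6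
  rw [Finset.mem_filter, Finset.mem_product] at hxz
  obtain ⟨⟨hx, hz⟩, he⟩ := hxz
  simp only at hx hz he
  rw [Finset.mem_sdiff] at hz
  have hne : x ≠ z := fun h => hz.2 (h ▸ hx)
  refine ⟨{x, z}, ?_, ?_, ?_⟩
  · intro w hw
    rw [Finset.mem_insert, Finset.mem_singleton] at hw
    rcases hw with rfl | rfl
    · exact hX1 hx
    · exact hz.1
  · rw [Finset.card_pair hne]
  · intro a ha b hb hab
    rw [Finset.mem_insert, Finset.mem_singleton] at ha hb
    rcases ha with rfl | rfl <;> rcases hb with rfl | rfl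
    · exact absurd rfl hab
    · exact he
    · rw [Sym2.eq_swap]; exact he
    · exact absurd rfl hab

theorem step (j : ℕ) (hj : 1 ≤ j) (ih : ∃ ε η : ℝ, 0 < ε ∧ 0 < η ∧ ∀ (p s : ℝ), 0 < p → p ≤ 1 →
    1 / η ≤ s * p ^ (j - 1) → ∀ (E : Finset (Sym2 ℕ)) (L X : Finset ℕ), Reg j η p s E L →
    X ⊆ L → ((L \ X).card : ℝ) ≤ ε * s → ∃ t : Finset ℕ, IsK E X (j + 1) t) :
    ∃ ε η : ℝ, 0 < ε ∧ 0 < η ∧ ∀ (p s : ℝ), 0 < p → p ≤ 1 →
    1 / η ≤ s * p ^ ((j + 1) - 1) → ∀ (E : Finset (Sym2 ℕ)) (L X : Finset ℕ),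
    Reg (j + 1) η p s E L →
    X ⊆ L → ((L \ X).card : ℝ) ≤ ε * s → ∃ t : Finset ℕ, IsK E X ((j + 1) + 1) t := by
  obtain ⟨ε, η, hε, hη, H⟩ := ih
  refine ⟨min (ε / 4) (1 / 10), min η (1 / 10), by positivity, by positivity, ?_⟩
  intro p s hp hp1 hs E L X hR hX hL
  set ε' := min (ε / 4) (1 / 10) with hε'
  set η' := min η (1 / 10) with hη'
  have e1 : ε' ≤ ε / 4 := min_le_left _ _
  have e2 : ε' ≤ 1 / 10 := min_le_right _ _
  have e3 : η' ≤ η := min_le_left _ _
  have e4 : η' ≤ 1 / 10 := min_le_right _ _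
  have e5 : 0 < η' := by positivity
  have e6 : 0 < ε' := by positivity
  rw [Nat.add_sub_cancel] at hs
  have hs0 : 0 < s := by
    have h1 : 0 < 1 / η' := by positivity
    have h2 : 0 < s * p ^ j := lt_of_lt_of_le h1 hs
    exact pos_of_mul_pos_left h2 (by positivity)
  obtain ⟨h1, h2, -⟩ := hR ∅ (Finset.empty_subset _) (by simp)
  rw [cnb_empty, Finset.card_empty, pow_zero, mul_one] at h1 h2
  have hc : (L.card : ℝ) = (X.card : ℝ) + ((L \ X).card : ℝ) := by
    have := Finset.card_sdiff_add_card_eq_card hX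
    have h' : ((L \ X).card : ℝ) + (X.card : ℝ) = (L.card : ℝ) := by exact_mod_cast this
    linarith
  have hXc : (1 / 2) * s ≤ (X.card : ℝ) := by
    have a1 : η' * s ≤ (1 / 10) * s := mul_le_mul_of_nonneg_right e4 hs0.le
    have a2 : ε' * s ≤ (1 / 10) * s := mul_le_mul_of_nonneg_right e2 hs0.le
    nlinarith
  have hXne : X.Nonempty := by
    rw [← Finset.card_pos]
    have : (0:ℝ) < (X.card : ℝ) := by nlinarith
    exact_mod_cast this
  -- double counting
  have hdc : ∑ a ∈ X, ((cnb E L {a}) \ X).card ≤ ∑ z ∈ L \ X, (cnb E L {z}).card := by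
    have l1 : ∑ a ∈ X, ((cnb E L {a}) \ X).card
        = ∑ a ∈ X, ((L \ X).filter (fun z => s(a, z) ∈ E)).card := by
      apply Finset.sum_congr rfl
      intro a ha
      congr 1
      ext z
      simp only [Finset.mem_sdiff, mem_cnb, Finset.mem_filter, Finset.mem_singleton, forall_eq]
      constructor
      · rintro ⟨⟨g1, g2, g3⟩, g4⟩
        exact ⟨⟨g1, g4⟩, g3⟩
      · rintro ⟨⟨g1, g2⟩, g3⟩
        exact ⟨⟨g1, fun h => g2 (h ▸ ha), g3⟩, g2⟩
    rw [l1]
    have l2 := Finset.sum_card_bipartiteAbove_eq_sum_card_bipartiteBelow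
      (s := X) (t := L \ X) (fun a z => s(a, z) ∈ E)
    unfold Finset.bipartiteAbove Finset.bipartiteBelow at l2
    rw [l2]
    apply Finset.sum_le_sum
    intro z hz
    apply Finset.card_le_card
    intro a ha
    rw [Finset.mem_filter] at ha
    rw [Finset.mem_sdiff] at hz
    rw [mem_cnb]
    refine ⟨hX ha.1, ?_, ?_⟩
    · rw [Finset.mem_singleton]
      intro h
      exact hz.2 (h ▸ ha.1)
    · intro x hx
      rw [Finset.mem_singleton] at hx
      subst hx
      rw [Sym2.eq_swap]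
      exact ha.2
  have hup : ∀ z ∈ L \ X, ((cnb E L {z}).card : ℝ) ≤ 2 * (s * p) := by
    intro z hz
    rw [Finset.mem_sdiff] at hz
    obtain ⟨_, g2, _⟩ := hR {z} (Finset.singleton_subset_iff.mpr hz.1)
      (by rw [Finset.card_singleton]; omega)
    rw [Finset.card_singleton, pow_one] at g2
    refine le_trans g2 ?_
    have : 0 ≤ s * p := by positivity
    nlinarith
  have hsum : ((∑ a ∈ X, ((cnb E L {a}) \ X).card : ℕ) : ℝ) ≤ X.card * (4 * ε' * (s * p)) := by
    have g1 : ((∑ a ∈ X, ((cnb E L {a}) \ X).card : ℕ) : ℝ)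
        ≤ ((∑ z ∈ L \ X, (cnb E L {z}).card : ℕ) : ℝ) := by exact_mod_cast hdc
    refine le_trans g1 ?_
    push_cast
    refine le_trans (Finset.sum_le_sum hup) ?_
    rw [Finset.sum_const, nsmul_eq_mul]
    have g2 : 0 ≤ s * p := by positivity
    calc ((L \ X).card : ℝ) * (2 * (s * p)) ≤ (ε' * s) * (2 * (s * p)) :=
          mul_le_mul_of_nonneg_right hL (by positivity)
      _ = ((1 / 2) * s) * (4 * ε' * (s * p)) := by ring
      _ ≤ X.card * (4 * ε' * (s * p)) := mul_le_mul_of_nonneg_right hXc (by positivity)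
  obtain ⟨a, haX, ha⟩ := exists_le_sum hXne _ _ hsum
  have haL : a ∈ L := hX haX
  have hR' := Reg_mono (Reg_sub hR haL) e3 (by positivity) hp.le
  have hs' : 1 / η ≤ s * p * p ^ (j - 1) := by
    have g1 : s * p * p ^ (j - 1) = s * p ^ j := by
      obtain ⟨i, rfl⟩ : ∃ i, j = i + 1 := ⟨j - 1, by omega⟩
      rw [Nat.add_sub_cancel, pow_succ]; ring
    rw [g1]
    exact le_trans (one_div_le_one_div_of_le e5 e3) hs
  have hsd : (cnb E L {a}) \ (X ∩ cnb E L {a}) = (cnb E L {a}) \ X := by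
    ext z
    simp only [Finset.mem_sdiff, Finset.mem_inter]
    tauto
  obtain ⟨t, ht⟩ := H p (s * p) hp hp1 hs' E (cnb E L {a}) (X ∩ cnb E L {a}) hR'
    Finset.inter_subset_right (by
      rw [hsd]
      refine le_trans ha ?_
      have : 0 ≤ s * p := by positivity
      nlinarith)
  have hat : a ∉ t := fun h => by
    have := (Finset.mem_inter.mp (ht.1 h)).2
    rw [mem_cnb] at this
    exact this.2.1 (Finset.mem_singleton_self a)
  refine ⟨insert a t, ?_, ?_, ?_⟩
  · exact Finset.insert_subset haX (ht.1.trans Finset.inter_subset_left)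
  · rw [Finset.card_insert_of_notMem hat, ht.2.1]
  · intro x hx y hy hne
    rw [Finset.mem_insert] at hx hy
    rcases hx with rfl | hx
    · rcases hy with rfl | hy
      · exact absurd rfl hne
      · have := (Finset.mem_inter.mp (ht.1 hy)).2
        rw [mem_cnb] at this
        exact this.2.2 x (Finset.mem_singleton_self x)
    · rcases hy with rfl | hy
      · have := (Finset.mem_inter.mp (ht.1 hx)).2
        rw [mem_cnb] at this
        rw [Sym2.eq_swap]
        exact this.2.2 y (Finset.mem_singleton_self y)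
      · exact ht.2.2 x hx y hy hne

theorem main : S_cl := by
  intro j hj
  induction j, hj using Nat.le_induction with
  | base => exact base
  | succ j hj ih => exact step j hj ih

end

end Pool.Agent.W646.KD.KdCl
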