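import Pool.Agent.W827.Kd.Basic
import Pool.Agent.W646.KD.KdCl

set_option autoImplicit false
open Classical

namespace Pool.Agent.W646.KD.KdPair

open Pool.Agent.H362C Pool.Agent.W827.Kd

noncomputable section

theorem main (hc : S_cl) (hs : S_size) (hq : S_quasi) : S_pair := by
  intro D hD
  obtain ⟨ε, η, hε, hη, Hc⟩ := hc (D - 1) (by omega)
  obtain ⟨Aq, hAq, Hq⟩ := hq D η (by omega) hη
  refine ⟨1 / η + 1 + Aq, by positivity, ?_⟩
  intro K
  obtain ⟨p1, hp1, H1⟩ := hs D (K + 1) η (by omega) hη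
  obtain ⟨p2, hp2, H2⟩ := Hq (K + 1)
  refine ⟨min (1 / 3) (min p1 p2), by positivity, ?_⟩
  intro p hp hpp M y y' U hyy hyM hyM' hM1 hM2 hU
  have k1 : p < 1 / 3 := lt_of_lt_of_le hpp (min_le_left _ _)
  have k2 : p < p1 := lt_of_lt_of_le hpp (le_trans (min_le_right _ _) (min_le_left _ _))
  have k3 : p < p2 := lt_of_lt_of_le hpp (le_trans (min_le_right _ _) (min_le_right _ _))
  have hple : p ≤ 1 := by linarith
  set V := insert y (insert y' M) with hV
  have hinv : 3 ≤ 1 / p := by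
    rw [le_div_iff₀ hp]; linarith
  have hη1 : 0 < 1 / η := by positivity
  have hx1 : (0:ℝ) < (1 / p) ^ (D + 1) := by positivity
  have hVc : (V.card : ℝ) ≤ (1 / p) ^ (2 * D + 5) := by
    have h1 : V.card ≤ M.card + 2 := by
      rw [hV]
      have a1 := Finset.card_insert_le y (insert y' M)
      have a2 := Finset.card_insert_le y' M
      omega
    have h2 : (V.card : ℝ) ≤ (M.card : ℝ) + 2 := by exact_mod_cast h1
    have h3 : (1:ℝ) ≤ (1 / p) ^ (2 * D + 4) := one_le_pow₀ (by linarith)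
    have h4 : (1 / p) ^ (2 * D + 5) = (1 / p) ^ (2 * D + 4) * (1 / p) := by rw [← pow_succ]
    rw [h4]
    nlinarith
  have hUV : ∀ x ∈ V, ∀ z ∈ M, x ≠ z → s(x, z) ∈ U := hU
  have hUM : ∀ x ∈ M, ∀ z ∈ M, x ≠ z → s(x, z) ∈ U := fun x hx z hz hne =>
    hU x (Finset.mem_insert_of_mem (Finset.mem_insert_of_mem hx)) z hz hne
  have g1 := H1 p hp k2 M V U (by nlinarith) hVc hUV
  have g2 := H2 p hp k3 M V U (by nlinarith) hM2 hVc hUV hUM
  have hfin : p ^ (K + 1) + p ^ (K + 1) ≤ p ^ K := by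
    rw [pow_succ]
    have : 0 ≤ p ^ K := by positivity
    nlinarith
  refine le_trans ?_ (le_trans (add_le_add g1 g2) hfin)
  refine le_trans ?_ (Pr_or_le hp.le hple _ _)
  apply Pr_mono hp.le hple
  intro E _ hPJ
  by_contra hcon
  push Not at hcon
  obtain ⟨hSize, hQuasi⟩ := hcon
  apply hPJ
  -- deterministic part
  set L := cnb E M {y, y'} with hL
  have hLM : L ⊆ M := cnb_sub
  have hReg : Reg (D - 1) η p (M.card * p ^ 2) E L := by
    intro F hF hFj
    have hyF : y ∉ F := fun h => hyM (hLM (hF h))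
    have hyF' : y' ∉ F := fun h => hyM' (hLM (hF h))
    have e1 : cnb E L F = cnb E M ({y, y'} ∪ F) := cnb_cnb
    have e2 : ({y, y'} ∪ F : Finset ℕ).card = F.card + 2 := by
      rw [Finset.card_union_of_disjoint, Finset.card_pair hyy]
      · omega
      · rw [Finset.disjoint_left]
        intro a ha haF
        rw [Finset.mem_insert, Finset.mem_singleton] at ha
        rcases ha with rfl | rfl
        · exact hyF haF
        · exact hyF' haF
    have e3 : ({y, y'} ∪ F : Finset ℕ) ⊆ V := by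
      intro a ha
      rw [Finset.mem_union, Finset.mem_insert, Finset.mem_singleton] at ha
      rw [hV, Finset.mem_insert, Finset.mem_insert]
      rcases ha with (rfl | rfl) | ha
      · exact Or.inl rfl
      · exact Or.inr (Or.inl rfl)
      · exact Or.inr (Or.inr (hLM (hF ha)))
    have h1 := hSize _ e3 (by omega) (by omega)
    have h2 := hQuasi _ e3 (by omega) (by omega)
    rw [e2] at h1 h2
    rw [e1]
    have e4 : ∀ c : ℝ, c * ((M.card : ℝ) * p ^ 2) * p ^ F.card = c * M.card * p ^ (F.card + 2) := by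
      intro c; rw [pow_add]; ring
    simp only [e4]
    exact ⟨h1.1, h1.2, h2⟩
  have hscale : 1 / η ≤ (M.card * p ^ 2) * p ^ (D - 1 - 1) := by
    have e5 : ((M.card : ℝ) * p ^ 2) * p ^ (D - 1 - 1) = M.card * p ^ D := by
      obtain ⟨i, rfl⟩ : ∃ i, D = i + 2 := ⟨D - 2, by omega⟩
      have : i + 2 - 1 - 1 = i := by omega
      rw [this, pow_add]; ring
    rw [e5]
    have e6 : (1 / p) ^ (D + 1) * p ^ D = 1 / p := by
      rw [pow_succ, one_div, inv_pow]
      have : p ^ D ≠ 0 := by positivity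
      field_simp
    have e7 : (1 / η + 1 + Aq) * (1 / p) ^ (D + 1) * p ^ D ≤ M.card * p ^ D :=
      mul_le_mul_of_nonneg_right hM1 (by positivity)
    have e8 : (1 / η + 1 + Aq) * (1 / p) ^ (D + 1) * p ^ D = (1 / η + 1 + Aq) * (1 / p) := by
      rw [mul_assoc, e6]
    rw [e8] at e7
    nlinarith
  obtain ⟨t, ht⟩ := Hc p (M.card * p ^ 2) hp hple hscale E L L hReg (le_refl _) (by
    rw [Finset.sdiff_self, Finset.card_empty, Nat.cast_zero]; positivity)
  rw [show D - 1 + 1 = D by omega] at ht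
  refine ⟨t, ht.2.1, ht.1.trans hLM, ?_, ht.2.2⟩
  intro z hz
  have := ht.1 hz
  rw [hL, mem_cnb] at this
  exact ⟨this.2.2 y (by simp), this.2.2 y' (by simp)⟩

end

end Pool.Agent.W646.KD.KdPair
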