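import Pool.Agent.W827.Kd.Basic
import Pool.Agent.W646.KD.KdCl

set_option autoImplicit false
open Classical

namespace Pool.Agent.W646.KD.KdPow

open Pool.Agent.H362C Pool.Agent.W827.Kd

noncomputable section

theorem St_mono {E : Finset (Sym2 ℕ)} {L L' : Finset ℕ} {k : ℕ} (hL : L ⊆ L')
    {K K' : Finset ℕ} (h : St E L k K K') : St E L' k K K' := by
  obtain ⟨⟨h1, h2, h3⟩, b, hb, hb2, hb3, a, ha, rfl⟩ := h
  exact ⟨⟨h1.trans hL, h2, h3⟩, b, hL hb, hb2, hb3, a, ha, rfl⟩

theorem LC_of_RTG {D : ℕ} {E : Finset (Sym2 ℕ)} {L : Finset ℕ}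
    {K K' : Finset ℕ} (h : Relation.ReflTransGen (St E L D) K K') :
    ∀ z ∈ K', LC D E L K z := by
  induction h with
  | refl => intro z hz; exact LC.base hz
  | tail _ hst ih =>
    obtain ⟨⟨h1, h2, h3⟩, b, hb, hb2, hb3, a, ha, rfl⟩ := hst
    intro z hz
    rw [Finset.mem_insert] at hz
    rcases hz with rfl | hz
    · exact LC.step _ hb h2 hb2 ih hb3 h3
    · exact ih z (Finset.mem_of_mem_erase hz)

theorem main (h : S_cl) : S_pow := by
  intro D hD
  obtain ⟨ε, η, hε, hη, H⟩ := h (D - 1) (by omega)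
  refine ⟨min (ε / 2) (1 / 10), min η (1 / 10), by positivity, by positivity, ?_⟩
  intro p s hp hp1 hs E M y hy hR hRb hb 𝒢 hF hA K hK b hbM
  set ε' := min (ε / 2) (1 / 10) with hε'
  set η' := min η (1 / 10) with hη'
  have e1 : ε' ≤ ε / 2 := min_le_left _ _
  have e2 : ε' ≤ 1 / 10 := min_le_right _ _
  have e3 : η' ≤ η := min_le_left _ _
  have e4 : η' ≤ 1 / 10 := min_le_right _ _
  have e5 : 0 < η' := by positivity
  have e6 : 0 < ε' := by positivity
  have hs0 : 0 < s := by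
    have h1 : 0 < 1 / η' := by positivity
    have h2 : 0 < s * p ^ (D - 1) := lt_of_lt_of_le h1 hs
    exact pos_of_mul_pos_left h2 (by positivity)
  have hsp0 : 0 < s * p := by positivity
  set L := cnb E M {y} with hLdef
  obtain ⟨𝒢b, hFb, hAb, hcb⟩ := hb b hbM
  set L' := cnb E M {y, b} with hL'def
  set X := L'.filter (fun z => ∃ K', 𝒢b K' ∧ z ∈ K') with hX
  have hmemL' : ∀ z, z ∈ L' ↔ z ∈ L.erase b ∧ s(b, z) ∈ E := by
    intro z
    rw [hL'def, hLdef, Finset.mem_erase, mem_cnb, mem_cnb]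
    simp only [Finset.mem_insert, Finset.mem_singleton, forall_eq_or_imp, forall_eq, not_or]
    tauto
  have hsub : L' \ X ⊆ (L.erase b).filter (fun z => s(b, z) ∈ E ∧ ∀ K, 𝒢b K → z ∉ K) := by
    intro z hz
    rw [Finset.mem_sdiff] at hz
    rw [Finset.mem_filter]
    have h1 := (hmemL' z).mp hz.1
    refine ⟨h1.1, h1.2, ?_⟩
    intro K' hK' hzK'
    exact hz.2 (Finset.mem_filter.mpr ⟨hz.1, K', hK', hzK'⟩)
  have hcard : ((L' \ X).card : ℝ) ≤ ε * (s * p) := by
    have h1 : ((L' \ X).card : ℝ) ≤ 2 * ε' * s * p := by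
      refine le_trans ?_ hcb
      exact_mod_cast Finset.card_le_card hsub
    refine le_trans h1 ?_
    nlinarith
  have hs' : 1 / η ≤ s * p * p ^ (D - 1 - 1) := by
    have g1 : s * p * p ^ (D - 1 - 1) = s * p ^ (D - 1) := by
      obtain ⟨i, rfl⟩ : ∃ i, D = i + 2 := ⟨D - 2, by omega⟩
      have : i + 2 - 1 = i + 1 := by omega
      rw [this, Nat.add_sub_cancel, pow_succ]; ring
    rw [g1]
    exact le_trans (one_div_le_one_div_of_le e5 e3) hs
  obtain ⟨t, ht⟩ := H p (s * p) hp hp1 hs' E L' X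
    (Reg_mono (hRb b hbM) e3 hsp0.le hp.le) (Finset.filter_subset _ _) hcard
  rw [show D - 1 + 1 = D by omega] at ht
  -- common clique
  have hbig : ∀ F, F ⊆ L.erase b → F.card < D →
      2 * ε' * (s * p ^ F.card) < ((cnb E (L.erase b) F).card : ℝ) := by
    intro F hF hFD
    have h1 := (hR F (hF.trans (Finset.erase_subset _ _)) hFD).1
    have h2 : (cnb E L F).card ≤ (cnb E (L.erase b) F).card + 1 := by
      have : cnb E L F ⊆ insert b (cnb E (L.erase b) F) := by
        intro z hz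
        rw [mem_cnb] at hz
        rw [Finset.mem_insert, mem_cnb, Finset.mem_erase]
        by_cases hzb : z = b
        · exact Or.inl hzb
        · exact Or.inr ⟨⟨hzb, hz.1⟩, hz.2.1, hz.2.2⟩
      exact le_trans (Finset.card_le_card this) (Finset.card_insert_le _ _)
    have h3 : ((cnb E L F).card : ℝ) ≤ ((cnb E (L.erase b) F).card : ℝ) + 1 := by exact_mod_cast h2
    have h4 : 10 ≤ s * p ^ F.card := by
      have g1 : (10:ℝ) ≤ 1 / η' := by
        rw [le_div_iff₀ e5]; linarith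
      have g2 : p ^ (D - 1) ≤ p ^ F.card := pow_le_pow_of_le_one hp.le hp1 (by omega)
      have g3 : s * p ^ (D - 1) ≤ s * p ^ F.card := mul_le_mul_of_nonneg_left g2 hs0.le
      linarith
    have h5 : (1 - η') * s * p ^ F.card = (1 - η') * (s * p ^ F.card) := by ring
    rw [h5] at h1
    nlinarith
  obtain ⟨K0, hK0, hG0, hG0b⟩ := AA_int hbig (AA_mono_L (Finset.erase_subset _ _) hA) hAb
  have hRTG1 : Relation.ReflTransGen (St E L D) K K0 := hF.2 K K0 hK hG0
  refine ⟨t, ht.2.1, ?_, ?_, ?_, ?_, ht.2.2⟩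
  · intro z hz
    have h1 := (hmemL' z).mp ((Finset.mem_filter.mp (ht.1 hz)).1)
    exact cnb_sub (Finset.mem_of_mem_erase h1.1)
  · intro hbt
    have h1 := (hmemL' b).mp ((Finset.mem_filter.mp (ht.1 hbt)).1)
    exact Finset.notMem_erase b L h1.1
  · intro z hz
    obtain ⟨K', hK', hzK'⟩ := (Finset.mem_filter.mp (ht.1 hz)).2
    have h1 : Relation.ReflTransGen (St E (L.erase b) D) K0 K' := hFb.2 K0 K' hG0b hK'
    have h2 : Relation.ReflTransGen (St E L D) K0 K' :=
      Relation.ReflTransGen.mono (r := St E (L.erase b) D) (p := St E L D)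
        (fun _ _ hst => St_mono (Finset.erase_subset _ _) hst) _ _ h1
    exact LC_of_RTG (hRTG1.trans h2) z hzK'
  · intro z hz
    exact ((hmemL' z).mp ((Finset.mem_filter.mp (ht.1 hz)).1)).2

theorem main' : S_pow := main KdCl.main

end

end Pool.Agent.W646.KD.KdPow
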