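import Pool.Agent.W827.Kd.Basic

set_option autoImplicit false
open Classical

namespace Pool.Agent.W646.KD.KdUb

open Pool.Agent.H362C Pool.Agent.W827.Kd

noncomputable section

theorem Ex_two (p : ℝ) (U W : Finset (Sym2 ℕ)) :
    Ex p U (fun F => (2:ℝ) ^ ((W ∩ F) ∩ U).card) = (1 + p) ^ (W ∩ U).card := by
  have h := Ex_prod p U (fun e => if e ∈ W then (2:ℝ) else 1) (fun _ => (1:ℝ))
  refine (Eq.trans ?_ h).trans ?_
  · apply Ex_congr
    intro F hF
    have e1 : (2:ℝ) ^ ((W ∩ F) ∩ U).card = ∏ e ∈ U, if e ∈ (W ∩ F) then (2:ℝ) else 1 := by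
      rw [Finset.prod_ite, Finset.prod_const, Finset.prod_const_one, mul_one]
      congr 2
      ext e
      simp only [Finset.mem_inter, Finset.mem_filter]
      tauto
    rw [e1]
    apply Finset.prod_congr rfl
    intro e _
    by_cases h1 : e ∈ F <;> by_cases h2 : e ∈ W <;> simp [h1, h2]
  have e2 : ∀ e ∈ U, (p * (if e ∈ W then (2:ℝ) else 1) + (1 - p) * 1)
      = if e ∈ W then (1 + p) else 1 := by
    intro e _
    by_cases h1 : e ∈ W
    · simp only [h1, if_true]; ring
    · simp only [h1, if_false]; ring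
  rw [Finset.prod_congr rfl e2, Finset.prod_ite, Finset.prod_const, Finset.prod_const_one, mul_one]
  congr 2
  ext e
  simp only [Finset.mem_inter, Finset.mem_filter]
  tauto

theorem tail {p r : ℝ} (h0 : 0 ≤ p) (h1 : p ≤ 1) (hr : 0 ≤ r) (b : ℕ) (U : Finset (Sym2 ℕ))
    (S : Finset ℕ) (hS : (S.card : ℝ) ≤ r) :
    Pr p U (fun F => 2 * p * r < ((S.filter (fun z => s(b, z) ∈ F)).card : ℝ))
      ≤ Real.exp (-(p * r / 3)) := by
  set W := S.image (fun z => s(b, z)) with hW
  have hinj : Function.Injective (fun z : ℕ => s(b, z)) := by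
    intro x z h
    simp only at h
    rcases Sym2.eq_iff.mp h with ⟨_, h2⟩ | ⟨h2, h3⟩
    · exact h2
    · omega
  have hcnt : ∀ F ⊆ U, (S.filter (fun z => s(b, z) ∈ F)).card = ((W ∩ F) ∩ U).card := by
    intro F hF
    rw [← Finset.card_image_of_injective _ hinj]
    congr 1
    ext e
    simp only [Finset.mem_image, Finset.mem_filter, Finset.mem_inter, hW]
    constructor
    · rintro ⟨z, ⟨hz, hzF⟩, rfl⟩
      exact ⟨⟨⟨z, hz, rfl⟩, hzF⟩, hF hzF⟩
    · rintro ⟨⟨⟨z, hz, rfl⟩, hzF⟩, _⟩
      exact ⟨z, ⟨hz, hzF⟩, rfl⟩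
  have hW2 : (W ∩ U).card ≤ S.card :=
    le_trans (Finset.card_le_card Finset.inter_subset_left) Finset.card_image_le
  have step1 : Pr p U (fun F => 2 * p * r < ((S.filter (fun z => s(b, z) ∈ F)).card : ℝ))
      ≤ Ex p U (fun F => Real.exp (-(Real.log 2 * (2 * p * r))) * (2:ℝ) ^ ((W ∩ F) ∩ U).card) := by
    unfold Pr
    apply Ex_mono h0 h1
    intro F hF
    have e3 : Real.exp (-(Real.log 2 * (2 * p * r))) * (2:ℝ) ^ ((W ∩ F) ∩ U).card
        = Real.exp (Real.log 2 * ((((W ∩ F) ∩ U).card : ℝ) - 2 * p * r)) := by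
      have e4 : (2:ℝ) ^ ((W ∩ F) ∩ U).card = Real.exp (Real.log 2 * (((W ∩ F) ∩ U).card : ℝ)) := by
        rw [mul_comm, Real.exp_nat_mul, Real.exp_log (by norm_num : (0:ℝ) < 2)]
      rw [e4, ← Real.exp_add]
      congr 1
      ring
    rw [e3]
    split_ifs with hA
    · simp only at hA
      rw [hcnt F hF] at hA
      rw [Real.one_le_exp_iff]
      exact mul_nonneg (Real.log_nonneg (by norm_num)) (by linarith)
    · exact (Real.exp_pos _).le
  refine le_trans step1 ?_
  rw [Ex_mul_left, Ex_two]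
  have step2 : (1 + p) ^ (W ∩ U).card ≤ Real.exp (p * r) := by
    calc (1 + p) ^ (W ∩ U).card ≤ (1 + p) ^ S.card := pow_le_pow_right₀ (by linarith) hW2
      _ ≤ (Real.exp p) ^ S.card := by
          apply pow_le_pow_left₀ (by linarith)
          have := Real.add_one_le_exp p
          linarith
      _ = Real.exp (S.card * p) := by rw [Real.exp_nat_mul]
      _ ≤ Real.exp (p * r) := by
          apply Real.exp_le_exp.mpr
          rw [mul_comm]
          exact mul_le_mul_of_nonneg_left hS h0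
  calc Real.exp (-(Real.log 2 * (2 * p * r))) * (1 + p) ^ (W ∩ U).card
      ≤ Real.exp (-(Real.log 2 * (2 * p * r))) * Real.exp (p * r) :=
        mul_le_mul_of_nonneg_left step2 (Real.exp_pos _).le
    _ = Real.exp (-(Real.log 2 * (2 * p * r)) + p * r) := by rw [← Real.exp_add]
    _ ≤ Real.exp (-(p * r / 3)) := by
        apply Real.exp_le_exp.mpr
        have h3 := Real.log_two_gt_d9
        have h4 : 0 ≤ p * r := mul_nonneg h0 hr
        nlinarith

theorem main : S_ub := by
  intro p r b U f h0 h1 hr hf hc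
  have hU : U = U.filter (fun e => b ∉ e) ∪ U.filter (fun e => b ∈ e) := by
    ext e
    simp only [Finset.mem_union, Finset.mem_filter]
    tauto
  have hdis : Disjoint (U.filter (fun e => b ∉ e)) (U.filter (fun e => b ∈ e)) := by
    rw [Finset.disjoint_left]
    intro e he he'
    exact (Finset.mem_filter.mp he).2 (Finset.mem_filter.mp he').2
  rw [hU, Pr_union p _ _ hdis]
  have : ∀ E ⊆ U.filter (fun e => b ∉ e), Pr p (U.filter (fun e => b ∈ e))
      (fun F => 2 * p * r < (((f (E ∪ F)).filter (fun z => s(b, z) ∈ E ∪ F)).card : ℝ))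
      ≤ Real.exp (-(p * r / 3)) := by
    intro E hE
    refine le_trans (Pr_mono h0 h1 ?_) (tail h0 h1 hr b (U.filter (fun e => b ∈ e)) (f E) (hc E))
    intro F hF hA
    have e1 : f (E ∪ F) = f E := by
      rw [hf (E ∪ F), hf E]
      congr 1
      ext e
      simp only [Finset.mem_filter, Finset.mem_union]
      constructor
      · rintro ⟨h | h, h2⟩
        · exact ⟨h, h2⟩
        · exact absurd (Finset.mem_filter.mp (hF h)).2 h2
      · rintro ⟨h, h2⟩
        exact ⟨Or.inl h, h2⟩
    rw [e1] at hA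
    have e2 : (f E).filter (fun z => s(b, z) ∈ E ∪ F) = (f E).filter (fun z => s(b, z) ∈ F) := by
      apply Finset.filter_congr
      intro z _
      rw [Finset.mem_union]
      constructor
      · rintro (h | h)
        · exact absurd (Sym2.mem_mk_left b z) (Finset.mem_filter.mp (hE h)).2
        · exact h
      · intro h
        exact Or.inr h
    rw [e2] at hA
    exact hA
  refine le_trans (Ex_mono h0 h1 this) ?_
  rw [Ex_const]

end

end Pool.Agent.W646.KD.KdUb
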