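import Pool.Agent.W827.Kd.Basic

set_option autoImplicit false
open Classical Filter Topology

namespace Pool.Agent.W646.KD.Up

open Pool.Agent.H362C Pool.Agent.W827.Kd

noncomputable section

/-- the rate as a function of x = log n -/
def rt (D : ℕ) (x : ℝ) : ℝ :=
  (Real.log x) ^ ((1:ℝ) / ((D:ℝ) + 1)) * x ^ (-(1:ℝ) / ((D:ℝ) + 1))

theorem rate_eq (D n : ℕ) : rate D n = rt D (Real.log n) := rfl

theorem rt_pow (D : ℕ) {x : ℝ} (hx : 1 < x) : (rt D x) ^ (D + 1) = Real.log x / x := by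
  unfold rt
  have h1 : (0:ℝ) ≤ Real.log x := Real.log_nonneg hx.le
  have h2 : (0:ℝ) < x := by linarith
  rw [mul_pow, ← Real.rpow_natCast, ← Real.rpow_natCast, ← Real.rpow_mul h1, ← Real.rpow_mul h2.le]
  push_cast
  have h3 : (1:ℝ) / ((D:ℝ) + 1) * ((D:ℝ) + 1) = 1 := by field_simp
  have h4 : -(1:ℝ) / ((D:ℝ) + 1) * ((D:ℝ) + 1) = -1 := by field_simp
  rw [h3, h4, Real.rpow_one, Real.rpow_neg h2.le, Real.rpow_one]
  rfl

theorem rt_pos (D : ℕ) {x : ℝ} (hx : 1 < x) : 0 < rt D x := by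
  unfold rt
  have h1 : (0:ℝ) < Real.log x := Real.log_pos hx
  have h2 : (0:ℝ) < x := by linarith
  positivity

theorem log_div_tendsto (k : ℕ) : Tendsto (fun x : ℝ => (Real.log x) ^ k / x) atTop (𝓝 0) := by
  have := Real.tendsto_pow_log_div_mul_add_atTop 1 0 k one_ne_zero
  simpa using this

theorem num (D K : ℕ) (C C2 c p0 : ℝ) (hC : 1 ≤ C) (hC2 : 0 < C2) (hCC : 4 * C2 ≤ C)
    (hc : 0 < c) (hp0 : 0 < p0) :
    ∀ᶠ x : ℝ in atTop, 1 < x ∧ C * rt D x < p0 ∧ C * rt D x ≤ 1 ∧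
      ((D:ℝ) + 1) ≤ 1 / (C * rt D x) ∧ 1 / (C * rt D x) ≤ x ∧
      Real.exp (-(x / 4)) ≤ Real.exp (-(C2 * Real.log (1 / (C * rt D x)) *
        (1 / (C * rt D x)) ^ (D + 1))) ∧
      3 ≤ Real.exp (-(x / 4)) * (Real.exp x / x ^ (K + 1) - 1) ∧
      (((D:ℝ) + 4) * x ≤ c * ((1 / (C * rt D x)) ^ (D + 1)) ^ 2) ∧
      (1 / c) * Real.exp (-x) ≤ 1 / 16 ∧ x ^ (K + 1) ≤ Real.exp x := by
  have hC0 : 0 < C := by linarith
  set δ : ℝ := min p0 (1 / ((D:ℝ) + 1)) with hδ
  have hδ0 : 0 < δ := by positivity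
  have hDpos : (0:ℝ) < (D:ℝ) + 1 := by positivity
  set M : ℝ := C ^ (D + 1) with hM
  have hM1 : 1 ≤ M := one_le_pow₀ hC
  have hMC : C ≤ M := by
    rw [hM]
    exact le_self_pow₀ hC (by omega)
  -- eventual facts
  have E1 : ∀ᶠ x : ℝ in atTop, Real.exp 1 ≤ x := eventually_ge_atTop _
  have E2 : ∀ᶠ x : ℝ in atTop, (Real.log x) ^ 1 / x < δ ^ (D + 1) / M :=
    (log_div_tendsto 1).eventually_lt_const (by positivity)
  have E3 : ∀ᶠ x : ℝ in atTop, (Real.log x) ^ 2 / x < c / (M ^ 2 * ((D:ℝ) + 4)) :=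
    (log_div_tendsto 2).eventually_lt_const (by positivity)
  have E4 : ∀ᶠ x : ℝ in atTop, x ^ (K + 1) * Real.exp (-x) < 1 := by
    exact (Real.tendsto_pow_mul_exp_neg_atTop_nhds_zero (K + 1)).eventually_lt_const one_pos
  have E5 : ∀ᶠ x : ℝ in atTop, Real.exp (-x) < c / 16 :=
    (Real.tendsto_exp_neg_atTop_nhds_zero).eventually_lt_const (by positivity)
  have E6 : ∀ᶠ x : ℝ in atTop, (3 * x / 4) ^ (K + 1) * Real.exp (-(3 * x / 4))
      < (3 / 4) ^ (K + 1) / 4 := by
    have h1 : Tendsto (fun x : ℝ => 3 * x / 4) atTop atTop := by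
      apply Filter.Tendsto.atTop_div_const (by norm_num)
      exact Filter.Tendsto.const_mul_atTop (by norm_num) tendsto_id
    have h2 := (Real.tendsto_pow_mul_exp_neg_atTop_nhds_zero (K + 1)).comp h1
    exact h2.eventually_lt_const (by positivity)
  filter_upwards [E1, E2, E3, E4, E5, E6] with x e1 e2 e3 e4 e5 e6
  have hexp1 : (2:ℝ) < Real.exp 1 := by
    have := Real.add_one_lt_exp (one_ne_zero : (1:ℝ) ≠ 0)
    linarith
  have hx1 : 1 < x := by linarith
  have hx0 : 0 < x := by linarith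
  have hlog1 : 1 ≤ Real.log x := by
    have := Real.log_le_log (Real.exp_pos 1) e1
    rwa [Real.log_exp] at this
  have hr := rt_pos D hx1
  have hrp := rt_pow D hx1
  set r := rt D x with hrdef
  have hp : 0 < C * r := by positivity
  have hpp : (C * r) ^ (D + 1) = M * (Real.log x / x) := by rw [mul_pow, hrp]
  have hpδ : C * r < δ := by
    apply lt_of_pow_lt_pow_left₀ (D + 1) hδ0.le
    rw [hpp]
    rw [pow_one] at e2
    rw [lt_div_iff₀ (by positivity)] at e2
    linarith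
  have hpp0 : C * r < p0 := lt_of_lt_of_le hpδ (min_le_left _ _)
  have hpD : C * r < 1 / ((D:ℝ) + 1) := lt_of_lt_of_le hpδ (min_le_right _ _)
  have hpD' : (D:ℝ) + 1 ≤ 1 / (C * r) := by
    rw [le_div_iff₀ hp]
    rw [lt_div_iff₀ hDpos] at hpD
    linarith
  have hple1 : C * r ≤ 1 := by
    refine le_trans hpD.le ?_
    rw [div_le_one hDpos]
    have : (0:ℝ) ≤ (D:ℝ) := Nat.cast_nonneg D
    linarith
  have hpx : 1 / (C * r) ≤ x := by
    -- 1/x ≤ p
    have h1 : 1 / x ≤ C * r := by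
      apply le_of_pow_le_pow_left₀ (by omega : D + 1 ≠ 0) hp.le
      rw [hpp]
      calc (1 / x) ^ (D + 1) ≤ 1 / x := by
            apply pow_le_of_le_one (by positivity) _ (by omega)
            rw [div_le_one hx0]; exact hx1.le
        _ ≤ M * (Real.log x / x) := by
            rw [← mul_div_assoc]
            apply div_le_div_of_nonneg_right _ hx0.le
            nlinarith
    rw [div_le_iff₀ hx0] at h1
    rw [div_le_iff₀ hp]
    linarith
  have hR : (1 / (C * r)) ^ (D + 1) = x / (M * Real.log x) := by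
    rw [one_div, inv_pow, hpp]
    have : Real.log x ≠ 0 := by linarith
    field_simp
  refine ⟨hx1, hpp0, hple1, hpD', hpx, ?_, ?_, ?_, ?_, ?_⟩
  · apply Real.exp_le_exp.mpr
    apply neg_le_neg
    rw [hR]
    have h1 : Real.log (1 / (C * r)) ≤ Real.log x := Real.log_le_log (by positivity) hpx
    have h2 : 0 ≤ x / (M * Real.log x) := by positivity
    calc C2 * Real.log (1 / (C * r)) * (x / (M * Real.log x))
        ≤ C2 * Real.log x * (x / (M * Real.log x)) := by
          apply mul_le_mul_of_nonneg_right _ h2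
          exact mul_le_mul_of_nonneg_left h1 hC2.le
      _ = C2 * x / M := by
          have : Real.log x ≠ 0 := by linarith
          field_simp
      _ ≤ x / 4 := by
          rw [div_le_div_iff₀ (by positivity) (by norm_num)]
          nlinarith
  · have h1 : Real.exp (-(x / 4)) * (Real.exp x / x ^ (K + 1) - 1)
        = Real.exp (3 * x / 4) / x ^ (K + 1) - Real.exp (-(x / 4)) := by
      have : Real.exp (-(x / 4)) * Real.exp x = Real.exp (3 * x / 4) := by
        rw [← Real.exp_add]; congr 1; ring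
      rw [mul_sub, mul_one, ← mul_div_assoc, this]
    rw [h1]
    have h2 : Real.exp (-(x / 4)) ≤ 1 := by
      rw [Real.exp_le_one_iff]; linarith
    have h3 : 4 ≤ Real.exp (3 * x / 4) / x ^ (K + 1) := by
      rw [le_div_iff₀ (by positivity)]
      have h4 : (3 * x / 4) ^ (K + 1) = (3 / 4) ^ (K + 1) * x ^ (K + 1) := by
        rw [← mul_pow]; congr 1; ring
      rw [h4] at e6
      have h5 : (0:ℝ) < (3 / 4) ^ (K + 1) := by positivity
      have h6 : x ^ (K + 1) * Real.exp (-(3 * x / 4)) < 1 / 4 := by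
        by_contra hcon
        push Not at hcon
        have := mul_le_mul_of_nonneg_left hcon h5.le
        nlinarith
      rw [Real.exp_neg] at h6
      have h7 : 0 < Real.exp (3 * x / 4) := Real.exp_pos _
      rw [← div_eq_mul_inv, div_lt_iff₀ h7] at h6
      linarith
    linarith
  · rw [hR]
    rw [div_lt_div_iff₀ hx0 (by positivity)] at e3
    have h1 : c * (x / (M * Real.log x)) ^ 2 = c * x ^ 2 / (M ^ 2 * (Real.log x) ^ 2) := by
      rw [div_pow, mul_pow]; ring
    rw [h1, le_div_iff₀ (by positivity)]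
    calc ((D:ℝ) + 4) * x * (M ^ 2 * Real.log x ^ 2)
        = x * (Real.log x ^ 2 * (M ^ 2 * ((D:ℝ) + 4))) := by ring
      _ ≤ x * (c * x) := mul_le_mul_of_nonneg_left e3.le hx0.le
      _ = c * x ^ 2 := by ring
  · have := mul_le_mul_of_nonneg_left e5.le (by positivity : (0:ℝ) ≤ 1 / c)
    refine le_trans this ?_
    apply le_of_eq
    field_simp
  · rw [Real.exp_neg, ← div_eq_mul_inv, div_lt_one (Real.exp_pos _)] at e4
    exact e4.le

end

end Pool.Agent.W646.KD.Up
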