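import Pool.Agent.W646.KD.UpA
import Pool.Agent.W646.KD.UpB

set_option autoImplicit false
open Classical Filter Topology

namespace Pool.Agent.W646.KD.KdUpper

open Pool.Agent.H362C Pool.Agent.W827.Kd Pool.Agent.W646.KD.Up

noncomputable section

theorem cond_num {D : ℕ} {n L : ℕ} {x p c cc : ℝ} (hn : (n:ℝ) = Real.exp x) (hn1 : 1 ≤ n)
    (hp : 0 < p) (hc : 0 < c) (hcc : c ≤ cc)
    (hL : (1 / p) ^ (3 * (D + 1)) ≤ (L : ℝ))
    (h1 : ((D:ℝ) + 4) * x ≤ c * ((1 / p) ^ (D + 1)) ^ 2)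
    (h2 : (1 / c) * Real.exp (-x) ≤ 1 / 16) :
    (1 / cc) * (((n - 1 : ℕ):ℝ) - ((0:ℕ):ℝ) + 1) ^ (D + 3) *
      Real.exp (-(cc * p ^ (D + 1) * L)) ≤ 1 / 16 := by
  have hcc0 : 0 < cc := lt_of_lt_of_le hc hcc
  have e1 : (((n - 1 : ℕ):ℝ) - ((0:ℕ):ℝ) + 1) = n := by
    push_cast [Nat.cast_sub hn1]
    ring
  rw [e1]
  have e2 : ((D:ℝ) + 4) * x ≤ cc * p ^ (D + 1) * L := by
    have g1 : ((1 / p) ^ (D + 1)) ^ 2 = p ^ (D + 1) * (1 / p) ^ (3 * (D + 1)) := by
      have hpn : p ^ (D + 1) ≠ 0 := by positivity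
      rw [show 3 * (D + 1) = (D + 1) * 3 by ring, pow_mul (1 / p) (D + 1) 3, one_div, inv_pow]
      field_simp
    calc ((D:ℝ) + 4) * x ≤ c * ((1 / p) ^ (D + 1)) ^ 2 := h1
      _ = c * (p ^ (D + 1) * (1 / p) ^ (3 * (D + 1))) := by rw [g1]
      _ ≤ c * (p ^ (D + 1) * L) := by
          apply mul_le_mul_of_nonneg_left _ hc.le
          exact mul_le_mul_of_nonneg_left hL (by positivity)
      _ ≤ cc * (p ^ (D + 1) * L) := mul_le_mul_of_nonneg_right hcc (by positivity)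
      _ = cc * p ^ (D + 1) * L := by ring
  have e3 : (n:ℝ) ^ (D + 3) = Real.exp (((D:ℝ) + 3) * x) := by
    rw [hn, ← Real.exp_nat_mul]
    push_cast
    rfl
  rw [e3]
  calc (1 / cc) * Real.exp (((D:ℝ) + 3) * x) * Real.exp (-(cc * p ^ (D + 1) * L))
      ≤ (1 / c) * Real.exp (((D:ℝ) + 3) * x) * Real.exp (-(((D:ℝ) + 4) * x)) := by
        apply mul_le_mul
        · apply mul_le_mul_of_nonneg_right _ (Real.exp_pos _).le
          exact one_div_le_one_div_of_le hc hcc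
        · apply Real.exp_le_exp.mpr
          linarith
        · exact (Real.exp_pos _).le
        · positivity
    _ = (1 / c) * Real.exp (-x) := by
        rw [mul_assoc, ← Real.exp_add]
        congr 2
        ring
    _ ≤ 1 / 16 := h2

theorem main (hg : S_grow) (hA : S_condA) (hB : S_condB) (hb : S_block) : S_upper := by
  intro D hD
  obtain ⟨C2, p0, hC2, hp0, Hb⟩ := hb D (3 * (D + 1)) hD (by omega)
  obtain ⟨cA, hcA, HA⟩ := hA D (by omega)
  obtain ⟨cB, hcB, HB⟩ := hB D (by omega)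
  have hnum := num D (3 * (D + 1)) (1 + 4 * C2) C2 (min cA cB) p0 (by linarith) hC2 (by linarith)
    (lt_min hcA hcB) hp0
  have htend : Tendsto (fun n : ℕ => Real.log (n:ℝ)) atTop atTop :=
    Real.tendsto_log_atTop.comp tendsto_natCast_atTop_atTop
  have hev := (htend.eventually hnum).and (eventually_ge_atTop 1)
  obtain ⟨N, hN⟩ := eventually_atTop.mp hev
  refine ⟨1 + 4 * C2, by linarith, N, ?_⟩
  intro n hn
  obtain ⟨⟨a1, a2, a3, a4, a5, a6, a7, a8, a9, a10⟩, hn1⟩ := hN n hn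
  rw [← rate_eq] at a2 a3 a4 a5 a6 a8
  refine ⟨a3, ?_⟩
  intro q hq1 hq2
  have hp : 0 < (1 + 4 * C2) * rate D n := by
    rw [rate_eq]
    exact mul_pos (by linarith) (rt_pos D a1)
  set p := (1 + 4 * C2) * rate D n with hpdef
  set x := Real.log (n:ℝ) with hx
  have hn0 : (0:ℝ) < n := by exact_mod_cast hn1
  have hnx : (n:ℝ) = Real.exp x := by rw [hx, Real.exp_log hn0]
  -- monotonicity in the parameter
  have hmono : Pr p (Ui 0 (n - 1)) (fun E => SatOn D 0 (n - 1) E 0 (n - 1))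
      ≤ Pr q (Ui 0 (n - 1)) (SatN D n) := by
    refine le_trans (Pr_mono_param hp.le hq1 hq2 (Ui 0 (n - 1)) _
      (fun E F hEF h => SatOn.mono h (le_refl _) (le_refl _) hEF)) ?_
    apply Pr_mono (le_trans hp.le hq1) hq2
    intro E hE h
    exact SatOn_SatN hE h
  refine le_trans ?_ hmono
  obtain ⟨a, L, hL1, hL2, hq⟩ := Hb p hp a2
  have hinv1 : (1:ℝ) ≤ 1 / p := by
    rw [le_div_iff₀ hp]; linarith
  have hinvL : 1 / p ≤ (L:ℝ) := by
    refine le_trans ?_ hL1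
    exact le_self_pow₀ hinv1 (by omega)
  have hLD : D + 1 ≤ L := by
    have : ((D:ℝ) + 1) ≤ (L:ℝ) := le_trans a4 hinvL
    exact_mod_cast this
  have hBx : ((a:ℝ) + L) ≤ x ^ (3 * (D + 1) + 1) :=
    le_trans hL2 (pow_le_pow_left₀ (by positivity) a5 _)
  have hBn : ((a:ℝ) + L) ≤ n := by
    rw [hnx]; exact le_trans hBx a10
  have hLn : L ≤ n := by
    have : (L:ℝ) ≤ n := by
      have : (0:ℝ) ≤ a := Nat.cast_nonneg a
      linarith
    exact_mod_cast this
  set k := n / (a + L) with hk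
  have hkn : k * (a + L) ≤ n := Nat.div_mul_le_self n (a + L)
  have hΛpos : 0 < a + L := by omega
  have hk2 : (n:ℝ) / (a + L) ≤ k + 1 := by
    have h1 : n < k * (a + L) + (a + L) := Nat.lt_div_mul_add hΛpos
    have h2 : (n:ℝ) < k * (a + L) + (a + L) := by exact_mod_cast h1
    have h3 : (0:ℝ) < (a:ℝ) + L := by exact_mod_cast hΛpos
    rw [div_le_iff₀ h3]
    linarith
  have hk3 : Real.exp x / x ^ (3 * (D + 1) + 1) - 1 ≤ k := by
    have h3 : (0:ℝ) < (a:ℝ) + L := by exact_mod_cast hΛpos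
    have h4 : (n:ℝ) / x ^ (3 * (D + 1) + 1) ≤ (n:ℝ) / (a + L) :=
      div_le_div_of_nonneg_left hn0.le h3 hBx
    rw [← hnx]
    linarith
  set q1 := Real.exp (-(C2 * Real.log (1 / p) * (1 / p) ^ (D + 1))) with hq1def
  have hq1le : q1 ≤ 1 := by
    rw [hq1def, Real.exp_le_one_iff, neg_nonpos]
    have : 0 ≤ Real.log (1 / p) := Real.log_nonneg hinv1
    positivity
  have hq1pos : 0 < q1 := Real.exp_pos _
  have hW : Pr p (Ui 0 (n - 1)) (fun E => ¬ CondW D 0 (n - 1) E L) ≤ 1 / 16 + 1 / 16 := by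
    have g1 := HA p 0 (n - 1) L hp a3 (by omega) (by omega)
    have g2 := HB p 0 (n - 1) L hp a3 (by omega) (by omega)
    have g3 := le_trans g1 (cond_num hnx hn1 hp (lt_min hcA hcB) (min_le_left _ _) hL1 a8 a9)
    have g4 := le_trans g2 (cond_num hnx hn1 hp (lt_min hcA hcB) (min_le_right _ _) hL1 a8 a9)
    refine le_trans ?_ (add_le_add g3 g4)
    refine le_trans ?_ (Pr_or_le hp.le a3 _ _)
    apply Pr_mono hp.le a3
    intro E _ h
    by_contra hcon
    push Not at hcon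
    exact h hcon
  have hcomb := comb (k := k) hg hp.le a3 (by omega : 1 ≤ D) hLD hkn hq hq1le hW
  refine le_trans ?_ hcomb
  have h5 : (1 - q1) ^ k ≤ 1 / 8 := by
    refine le_trans (one_sub_pow_le hq1le k) ?_
    have h6 : 3 ≤ q1 * k := by
      have hpos : 0 ≤ Real.exp x / x ^ (3 * (D + 1) + 1) - 1 := by
        by_contra hcon
        push Not at hcon
        have := mul_neg_of_pos_of_neg (Real.exp_pos (-(x / 4))) hcon
        linarith
      calc (3:ℝ) ≤ Real.exp (-(x / 4)) * (Real.exp x / x ^ (3 * (D + 1) + 1) - 1) := a7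
        _ ≤ q1 * k := mul_le_mul a6 hk3 hpos hq1pos.le
    have h7 : Real.exp (-(q1 * k)) ≤ Real.exp (-3) := Real.exp_le_exp.mpr (by linarith)
    refine le_trans h7 ?_
    rw [Real.exp_neg]
    have h8 : (2:ℝ) ≤ Real.exp 1 := by
      have := Real.add_one_le_exp (1:ℝ)
      linarith
    have h9 : (8:ℝ) ≤ Real.exp 3 := by
      have : Real.exp 3 = (Real.exp 1) ^ 3 := by
        rw [← Real.exp_nat_mul]; norm_num
      rw [this]
      calc (8:ℝ) = 2 ^ 3 := by norm_num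
        _ ≤ _ := pow_le_pow_left₀ (by norm_num) h8 3
    rw [inv_le_comm₀ (Real.exp_pos _) (by norm_num)]
    norm_num
    exact h9
  linarith

end

end Pool.Agent.W646.KD.KdUpper
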