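import Pool.Agent.W827.Kd.Basic

set_option autoImplicit false
open Classical

namespace Pool.Agent.W646.KD.Up

open Pool.Agent.H362C Pool.Agent.W827.Kd

noncomputable section

theorem one_sub_pow_le {p : ℝ} (h1 : p ≤ 1) (k : ℕ) : (1 - p) ^ k ≤ Real.exp (-(p * k)) := by
  have h2 : 1 - p ≤ Real.exp (-p) := by
    have := Real.add_one_le_exp (-p)
    linarith
  calc (1 - p) ^ k ≤ (Real.exp (-p)) ^ k := pow_le_pow_left₀ (by linarith) h2 _
    _ = _ := by rw [← Real.exp_nat_mul]; congr 1; ring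

/-- union of the first `k` blocks -/
def Vk (Λ : ℕ) (k : ℕ) : Finset (Sym2 ℕ) :=
  (Finset.range k).biUnion (fun i => Ui (i * Λ) (i * Λ + (Λ - 1)))

theorem blocks_indep {p : ℝ} (h0 : 0 ≤ p) (h1 : p ≤ 1) {Λ : ℕ} (hΛ : 1 ≤ Λ)
    (A : ℕ → Finset (Sym2 ℕ) → Prop)
    (hA : ∀ i E, A i E ↔ A i (E ∩ Ui (i * Λ) (i * Λ + (Λ - 1)))) (π : ℝ)
    (hπ : ∀ i, π ≤ Pr p (Ui (i * Λ) (i * Λ + (Λ - 1))) (A i)) (hπ1 : π ≤ 1) (k : ℕ) :
    Pr p (Vk Λ k) (fun E => ∀ i < k, ¬ A i E) ≤ (1 - π) ^ k := by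
  induction k with
  | zero =>
    simp only [pow_zero]
    exact Pr_le_one h0 h1 _ _
  | succ k ih =>
    have hst : Vk Λ (k + 1) = Vk Λ k ∪ Ui (k * Λ) (k * Λ + (Λ - 1)) := by
      unfold Vk
      rw [Finset.range_add_one, Finset.biUnion_insert, Finset.union_comm]
    have hdisj : Disjoint (Vk Λ k) (Ui (k * Λ) (k * Λ + (Λ - 1))) := by
      rw [Finset.disjoint_left]
      intro e he he'
      unfold Vk at he
      rw [Finset.mem_biUnion] at he
      obtain ⟨i, hi, he⟩ := he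
      rw [Finset.mem_range] at hi
      have hik : i * Λ + Λ ≤ k * Λ := by
        have : (i + 1) * Λ ≤ k * Λ := Nat.mul_le_mul_right Λ hi
        rw [Nat.add_mul, one_mul] at this
        exact this
      induction e using Sym2.ind with
      | h x z =>
        rw [mem_Ui] at he he'
        omega
    have e1 : Pr p (Vk Λ (k + 1)) (fun E => ∀ i < k + 1, ¬ A i E)
        = Pr p (Vk Λ k ∪ Ui (k * Λ) (k * Λ + (Λ - 1))) (fun E => (∀ i < k, ¬ A i E) ∧ ¬ A k E) := by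
      rw [hst]
      apply Pr_congr
      intro E _
      constructor
      · intro h
        exact ⟨fun i hi => h i (by omega), h k (by omega)⟩
      · rintro ⟨h2, h3⟩ i hi
        by_cases hik : i = k
        · rw [hik]; exact h3
        · exact h2 i (by omega)
    have hres : ∀ i < k, ∀ E, A i E ↔ A i (E ∩ Vk Λ k) := by
      intro i hi E
      rw [hA i E, hA i (E ∩ Vk Λ k)]
      have : E ∩ Vk Λ k ∩ Ui (i * Λ) (i * Λ + (Λ - 1)) = E ∩ Ui (i * Λ) (i * Λ + (Λ - 1)) := by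
        rw [Finset.inter_assoc]
        congr 1
        apply Finset.inter_eq_right.mpr
        unfold Vk
        exact Finset.subset_biUnion_of_mem (fun i => Ui (i * Λ) (i * Λ + (Λ - 1)))
          (Finset.mem_range.mpr hi)
      rw [this]
    rw [e1, Pr_and_indep p _ _ hdisj, pow_succ]
    · have e2 : Pr p (Ui (k * Λ) (k * Λ + (Λ - 1))) (fun E => ¬ A k E) ≤ 1 - π := by
        rw [Pr_not]
        have := hπ k
        linarith
      exact mul_le_mul ih e2 (Pr_nonneg h0 h1 _ _) (pow_nonneg (by linarith) _)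
    · intro E
      constructor
      · intro h i hi hh
        exact h i hi ((hres i hi E).mpr hh)
      · intro h i hi hh
        exact h i hi ((hres i hi E).mp hh)
    · intro E
      exact not_congr (hA k E)

theorem Ui_sub {a b a' b' : ℕ} (h1 : a' ≤ a) (h2 : b ≤ b') : Ui a b ⊆ Ui a' b' := by
  intro e he
  induction e using Sym2.ind with
  | h x z =>
    rw [mem_Ui] at he ⊢
    omega

theorem comb (hg : S_grow) {p : ℝ} (h0 : 0 ≤ p) (h1 : p ≤ 1) {D n a L k : ℕ} {q1 eW : ℝ}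
    (hD : 1 ≤ D) (hL : D + 1 ≤ L) (hk : k * (a + L) ≤ n)
    (hq : ∀ x0, q1 ≤ Pr p (Ui x0 (x0 + a + L - 1))
      (fun E => SatOn D x0 (x0 + a + L - 1) E (x0 + a) (x0 + a + L - 1))) (hq1 : q1 ≤ 1)
    (hW : Pr p (Ui 0 (n - 1)) (fun E => ¬ CondW D 0 (n - 1) E L) ≤ eW) :
    1 - (eW + (1 - q1) ^ k) ≤ Pr p (Ui 0 (n - 1)) (fun E => SatOn D 0 (n - 1) E 0 (n - 1)) := by
  set Λ := a + L with hΛ
  set A : ℕ → Finset (Sym2 ℕ) → Prop := fun i E =>
    SatOn D (i * Λ) (i * Λ + (Λ - 1)) E (i * Λ + a) (i * Λ + (Λ - 1)) with hAdef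
  have hidx : ∀ i : ℕ, i * Λ + a + L - 1 = i * Λ + (Λ - 1) := by intro i; omega
  have hA : ∀ i E, A i E ↔ A i (E ∩ Ui (i * Λ) (i * Λ + (Λ - 1))) := by
    intro i E
    constructor
    · intro h
      exact SatOn.restrict h
    · intro h
      exact SatOn.mono h (le_refl _) (le_refl _) Finset.inter_subset_left
  have hπ : ∀ i, q1 ≤ Pr p (Ui (i * Λ) (i * Λ + (Λ - 1))) (A i) := by
    intro i
    have := hq (i * Λ)
    rw [hidx i] at this
    exact this
  have hb := blocks_indep h0 h1 (by omega : 1 ≤ Λ) A hA q1 hπ hq1 k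
  have hVsub : Vk Λ k ⊆ Ui 0 (n - 1) := by
    unfold Vk
    rw [Finset.biUnion_subset]
    intro i hi
    rw [Finset.mem_range] at hi
    apply Ui_sub (Nat.zero_le _)
    have : (i + 1) * Λ ≤ k * Λ := Nat.mul_le_mul_right Λ hi
    rw [Nat.add_mul, one_mul] at this
    omega
  have hres : ∀ E, (∀ i < k, ¬ A i E) ↔ (∀ i < k, ¬ A i (E ∩ Vk Λ k)) := by
    intro E
    have key : ∀ i < k, (A i E ↔ A i (E ∩ Vk Λ k)) := by
      intro i hi
      rw [hA i E, hA i (E ∩ Vk Λ k)]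
      have : E ∩ Vk Λ k ∩ Ui (i * Λ) (i * Λ + (Λ - 1)) = E ∩ Ui (i * Λ) (i * Λ + (Λ - 1)) := by
        rw [Finset.inter_assoc]
        congr 1
        apply Finset.inter_eq_right.mpr
        unfold Vk
        exact Finset.subset_biUnion_of_mem (fun i => Ui (i * Λ) (i * Λ + (Λ - 1)))
          (Finset.mem_range.mpr hi)
      rw [this]
    constructor
    · intro h i hi hh
      exact h i hi ((key i hi).mpr hh)
    · intro h i hi hh
      exact h i hi ((key i hi).mp hh)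
  have hb2 : Pr p (Ui 0 (n - 1)) (fun E => ∀ i < k, ¬ A i E) ≤ (1 - q1) ^ k := by
    rw [Pr_restrict p (Ui 0 (n - 1)) (Vk Λ k) hVsub _ hres]
    exact hb
  have h3 : Pr p (Ui 0 (n - 1)) (fun E => ¬ SatOn D 0 (n - 1) E 0 (n - 1))
      ≤ eW + (1 - q1) ^ k := by
    refine le_trans ?_ (add_le_add hW hb2)
    refine le_trans ?_ (Pr_or_le h0 h1 _ _)
    apply Pr_mono h0 h1
    intro E _ hns
    by_contra hcon
    push Not at hcon
    obtain ⟨hC, i, hi, hAi⟩ := hcon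
    apply hns
    have hik : i * Λ + Λ ≤ n := by
      have : (i + 1) * Λ ≤ k * Λ := Nat.mul_le_mul_right Λ hi
      rw [Nat.add_mul, one_mul] at this
      omega
    apply hg D 0 (n - 1) 0 (n - 1) L (i * Λ + a) E hD hL (le_refl _) (le_refl _) hC
      (Nat.zero_le _) (by omega)
    rw [hidx i]
    exact SatOn.mono hAi (Nat.zero_le _) (by omega) (le_refl _)
  rw [Pr_not] at h3
  linarith

theorem SatOn_SatN {D n : ℕ} {E : Finset (Sym2 ℕ)} (hE : E ⊆ Ui 0 (n - 1))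
    (h : SatOn D 0 (n - 1) E 0 (n - 1)) : SatN D n E := by
  intro x z hxz
  have h1 := mem_Ui.mp (hE hxz)
  exact (h x z h1.2.1.1 h1.2.1.2 h1.2.2.1 h1.2.2.2 h1.1).occ h1.1 hxz h1.2.1.1 h1.2.1.2 h1.2.2.1
    h1.2.2.2

end

end Pool.Agent.W646.KD.Up
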